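import Mathlib
import Pool.Agent.N287.WF.Stm

/-! The effect of the action of the plane on the contact form. -/

open scoped Topology ContDiff Manifold
open Set Filter Bundle Pool.Agent.Helper186 Pool.Agent.H826R2 Pool.Agent.N287.WF

noncomputable section

namespace Pool.Agent.N674.WF

set_option autoImplicit false
set_option linter.unusedSectionVars false

universe u v w

variable {E : Type u} [NormedAddCommGroup E] [NormedSpace ℝ E] [FiniteDimensional ℝ E]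
  {M : Type v} [TopologicalSpace M] [ChartedSpace E M] [IsManifold 𝓘(ℝ, E) ∞ M] [T2Space M]
  {W : Type w} [NormedAddCommGroup W] [InnerProductSpace ℝ W] [FiniteDimensional ℝ W]
  {β : (x : M) → TangentSpace 𝓘(ℝ, E) x →L[ℝ] ℝ} {R : (x : M) → TangentSpace 𝓘(ℝ, E) x}
  {f : M → W} {Y : (x : M) → TangentSpace 𝓘(ℝ, E) x} {a : M → W}

lemma dForm_cst (c : ℝ) (x : M) (u : TangentSpace 𝓘(ℝ, E) x) :
    dForm 𝓘(ℝ, E) (fun _ : M => c) x u = 0 := by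
  unfold dForm
  rw [mfderiv_const]
  rfl

lemma X_one (c : Wein.CD β R) (x : M) : R x = c.X (fun _ => 1) x := by
  apply c.X_unique
  intro v
  rw [Wein.HB_apply, c.reeb.unit, c.reeb.kernel, dForm_cst]
  ring

lemma smooth_R (c : Wein.CD β R) : ContMDiff 𝓘(ℝ, E) 𝓘(ℝ, E).tangent ∞
    (fun x => (⟨x, R x⟩ : TangentBundle 𝓘(ℝ, E) M)) := by
  have h1 := c.smooth_X (f := fun _ : M => (1 : ℝ)) contMDiff_const
  have h2 : (fun x => (⟨x, c.X (fun _ => 1) x⟩ : TangentBundle 𝓘(ℝ, E) M)) =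
      fun x => ⟨x, R x⟩ := by
    funext x
    rw [← X_one c x]
  rw [h2] at h1
  exact h1

/-- variation of a one-form along a flow -/
lemma var_flow {V : (x : M) → TangentSpace 𝓘(ℝ, E) x} (hβ : SmoothForm β)
    (hV : ContMDiff 𝓘(ℝ, E) 𝓘(ℝ, E).tangent ∞
      (fun x => (⟨x, V x⟩ : TangentBundle 𝓘(ℝ, E) M)))
    {Φ : M → ℝ → M} (h0 : ∀ x, Φ x 0 = x)
    (hint : ∀ x, IsMIntegralCurve (I := 𝓘(ℝ, E)) (Φ x) V)
    {k : ℝ} (hk : ∀ x, β x (V x) = k) (x : M) (u : TangentSpace 𝓘(ℝ, E) x) {m : ℝ}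
    (hm : ∀ s, extDer 𝓘(ℝ, E) β (Φ x s) (V (Φ x s))
      (mfderiv 𝓘(ℝ, E) 𝓘(ℝ, E) (fun y => Φ y s) x u) = m) (t : ℝ) :
    β (Φ x t) (mfderiv 𝓘(ℝ, E) 𝓘(ℝ, E) (fun y => Φ y t) x u) = β x u + t * m := by
  have hM1 : IsManifold 𝓘(ℝ, E) 1 M := IsManifold.of_le (n := ∞) (by simp)
  have hfl : ContMDiff (𝓘(ℝ, E).prod 𝓘(ℝ, ℝ)) 𝓘(ℝ, E) ∞ (fun p : M × ℝ => Φ p.1 p.2) :=
    contMDiff_flow hV h0 hint
  let i : ℝ × M → M := fun p => Φ p.2 p.1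
  have hi : ContMDiff (𝓘(ℝ, ℝ).prod 𝓘(ℝ, E)) 𝓘(ℝ, E) ∞ i :=
    hfl.comp (contMDiff_snd.prodMk contMDiff_fst)
  have hdS : ∀ (s : ℝ) (y : M), dS 𝓘(ℝ, E) i s y = V (Φ y s) := by
    intro s y
    have h := (hint y s).mfderiv
    unfold dS
    show (mfderiv 𝓘(ℝ, ℝ) 𝓘(ℝ, E) (fun σ => Φ y σ) s) (1:ℝ) = _
    have h2 : (fun σ => Φ y σ) = Φ y := rfl
    rw [h2, h]
    show (1 : ℝ →L[ℝ] ℝ) 1 • V (Φ y s) = _
    simp
  have hder : ∀ s, HasDerivAt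
      (fun σ => β (i (σ, x)) (dX 𝓘(ℝ, E) 𝓘(ℝ, E) i σ x u) - σ * m) 0 s := by
    intro s
    have h1 := hasDerivAt_variation (I := 𝓘(ℝ, E)) (J := 𝓘(ℝ, E)) hβ isOpen_univ
      hi.contMDiffOn (mem_univ (s, x)) u
    have h2 : (fun x' : M => β (i (s, x')) (dS 𝓘(ℝ, E) i s x')) = fun _ => k := by
      funext x'
      rw [hdS]
      exact hk _
    have h3 : (mfderiv 𝓘(ℝ, E) 𝓘(ℝ, ℝ)
        (fun x' : M => β (i (s, x')) (dS 𝓘(ℝ, E) i s x')) x u : ℝ) = 0 := by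
      rw [h2, mfderiv_const]
      rfl
    have h4 : extDer 𝓘(ℝ, E) β (i (s, x)) (dS 𝓘(ℝ, E) i s x)
        (dX 𝓘(ℝ, E) 𝓘(ℝ, E) i s x u) = m := by
      rw [hdS]
      exact hm s
    have h5 := h1.sub ((hasDerivAt_id s).mul_const m)
    have h6 : ∀ p q : ℝ, p = m → q = 0 → p + q - 1 * m = 0 := by
      intro p q hp hq
      rw [hp, hq]
      ring
    exact h5.congr_deriv (h6 _ _ h4 h3)
  have hconst := is_const_of_deriv_eq_zero (fun s => (hder s).differentiableAt)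
    (fun s => (hder s).deriv) t 0
  have h5 : β (i (0, x)) (dX 𝓘(ℝ, E) 𝓘(ℝ, E) i 0 x u) = β x u := by
    have e0 : (fun x' : M => i (0, x')) = id := by ext1 y; exact h0 y
    have e1 : (dX 𝓘(ℝ, E) 𝓘(ℝ, E) i 0 x u : E) = u := by
      unfold dX
      rw [e0, mfderiv_id]
      rfl
    have e2 : ∀ (z : M) (w : E), z = x → w = u → β z w = β x u := by
      rintro _ _ rfl rfl; rfl
    exact e2 _ _ (h0 x) e1
  have h6 : β (Φ x t) (mfderiv 𝓘(ℝ, E) 𝓘(ℝ, E) (fun y => Φ y t) x u) - t * m =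
      β (i (0, x)) (dX 𝓘(ℝ, E) 𝓘(ℝ, E) i 0 x u) - 0 * m := hconst
  rw [h5] at h6
  linarith

/-- a smooth map whose derivative kills `V` is constant along the flow of `V` -/
lemma const_along {V : (x : M) → TangentSpace 𝓘(ℝ, E) x}
    (hf : ContMDiff 𝓘(ℝ, E) 𝓘(ℝ, W) ∞ f) (hV : ∀ x, DW f x (V x) = 0)
    {Φ : M → ℝ → M} (h0 : ∀ x, Φ x 0 = x)
    (hint : ∀ x, IsMIntegralCurve (I := 𝓘(ℝ, E)) (Φ x) V) (x : M) (t : ℝ) :
    f (Φ x t) = f x := by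
  have hder : ∀ s, HasDerivAt (fun σ => f (Φ x σ)) 0 s := by
    intro s
    have h1 := HasMFDerivAt.comp s (g := f) (f := Φ x)
      (hf.mdifferentiableAt (by simp)).hasMFDerivAt (hint x s)
    have h2 : HasFDerivAt (fun s => f (Φ x s)) (show ℝ →L[ℝ] W from
        (mfderiv 𝓘(ℝ, E) 𝓘(ℝ, W) f (Φ x s)).comp
          ((1 : ℝ →L[ℝ] ℝ).smulRight (V (Φ x s)))) s :=
      hasMFDerivAt_iff_hasFDerivAt.1 h1
    refine h2.hasDerivAt.congr_deriv ?_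
    show mfderiv 𝓘(ℝ, E) 𝓘(ℝ, W) f (Φ x s) ((1 : ℝ) • V (Φ x s)) = 0
    rw [one_smul]
    exact hV _
  have hconst := is_const_of_deriv_eq_zero (fun s => (hder s).differentiableAt)
    (fun s => (hder s).deriv) t 0
  have h3 : f (Φ x t) = f (Φ x 0) := hconst
  rw [h3, h0]

theorem form : FormStm.{u, v, w} := by
  intro E _ _ _ M _ _ _ _ W _ _ _ β R f Y a hN φ ψ hF ha γ x v
  have hM1 : IsManifold 𝓘(ℝ, E) 1 M := IsManifold.of_le (n := ∞) (by simp)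
  have c := hN.cd
  have hR := smooth_R c
  have hφs : ∀ t, ContMDiff 𝓘(ℝ, E) 𝓘(ℝ, E) ∞ (fun y => φ y t) := fun t =>
    (contMDiff_flow hR hF.φ0 hF.φint).comp (contMDiff_id.prodMk contMDiff_const)
  have hψs : ∀ t, ContMDiff 𝓘(ℝ, E) 𝓘(ℝ, E) ∞ (fun y => ψ y t) := fun t =>
    (contMDiff_flow hN.smoothY hF.ψ0 hF.ψint).comp (contMDiff_id.prodMk contMDiff_const)
  have hYk : ∀ y, DW f y (Y y) = 0 := fun y =>
    (hN.ker y (Y y)).2 ⟨0, 1, by simp⟩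
  have hfc : ∀ y s, f (ψ y s) = f y := const_along hN.smoothf hYk hF.ψ0 hF.ψint
  -- the chain rule for `f`
  have hch : ∀ (s : ℝ), DW f (ψ x s) (mfderiv 𝓘(ℝ, E) 𝓘(ℝ, E) (fun y => ψ y s) x v) =
      DW f x v := by
    intro s
    have h1 : mfderiv 𝓘(ℝ, E) 𝓘(ℝ, W) (f ∘ fun y => ψ y s) x =
        (mfderiv 𝓘(ℝ, E) 𝓘(ℝ, W) f (ψ x s)).comp
        (mfderiv 𝓘(ℝ, E) 𝓘(ℝ, E) (fun y => ψ y s) x) :=
      mfderiv_comp _ (hN.smoothf.mdifferentiableAt (by simp))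
        ((hψs s).mdifferentiableAt (by simp))
    have h2 : (f ∘ fun y => ψ y s) = f := by
      funext y
      exact hfc y s
    rw [h2] at h1
    exact (congrArg (fun T : E →L[ℝ] W => T (v : E)) h1).symm
  -- the second flow
  have hψβ : β (ψ x γ.2) (mfderiv 𝓘(ℝ, E) 𝓘(ℝ, E) (fun y => ψ y γ.2) x v) =
      β x v + γ.2 * inner ℝ (a x) (DW f x v) := by
    refine var_flow c.contact.smooth hN.smoothY hF.ψ0 hF.ψint hN.kerβ x v ?_ γ.2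
    intro s
    rw [hN.theta, ha, hch]
  -- the first flow
  have hφβ : β (φ (ψ x γ.2) γ.1) (mfderiv 𝓘(ℝ, E) 𝓘(ℝ, E) (fun y => φ y γ.1) (ψ x γ.2)
      (mfderiv 𝓘(ℝ, E) 𝓘(ℝ, E) (fun y => ψ y γ.2) x v)) =
      β (ψ x γ.2) (mfderiv 𝓘(ℝ, E) 𝓘(ℝ, E) (fun y => ψ y γ.2) x v) + γ.1 * 0 := by
    refine var_flow c.contact.smooth hR hF.φ0 hF.φint c.reeb.unit _ _ ?_ γ.1
    intro s
    rw [c.reeb.kernel]
  have hcomp : mfderiv 𝓘(ℝ, E) 𝓘(ℝ, E) ((fun y => φ y γ.1) ∘ (fun y => ψ y γ.2)) x =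
      (mfderiv 𝓘(ℝ, E) 𝓘(ℝ, E) (fun y => φ y γ.1) (ψ x γ.2)).comp
      (mfderiv 𝓘(ℝ, E) 𝓘(ℝ, E) (fun y => ψ y γ.2) x) :=
    mfderiv_comp _ ((hφs γ.1).mdifferentiableAt (by simp))
      ((hψs γ.2).mdifferentiableAt (by simp))
  have hfin : β (act φ ψ γ x) (mfderiv 𝓘(ℝ, E) 𝓘(ℝ, E) (act φ ψ γ) x v) =
      β (φ (ψ x γ.2) γ.1) (mfderiv 𝓘(ℝ, E) 𝓘(ℝ, E) (fun y => φ y γ.1) (ψ x γ.2)
      (mfderiv 𝓘(ℝ, E) 𝓘(ℝ, E) (fun y => ψ y γ.2) x v)) := by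
    have h1 : mfderiv 𝓘(ℝ, E) 𝓘(ℝ, E) (act φ ψ γ) x v =
        (mfderiv 𝓘(ℝ, E) 𝓘(ℝ, E) ((fun y => φ y γ.1) ∘ (fun y => ψ y γ.2)) x) v := rfl
    rw [h1, hcomp]
    rfl
  rw [hfin, hφβ, hψβ, mul_zero, add_zero]

end Pool.Agent.N674.WF
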